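import Pool.Agent.H32.BQ.Gap5

/-!
# MP_d9a994_al: a gap for the growth of the subgroups generated by powers

`ball S j` is the set of the products of at most `j` factors, each of which is an element of `S` or the inverse of
an element of `S`; `powSub S n j` is the subgroup generated by the `n`-th powers of the elements of `ball S j`.

The five statements in the theorem are equivalent. By `SymmetricGroups`, Q1 itself is equivalent to (4) and to (5)
without the condition on the growth.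
-/

set_option autoImplicit false

open Pool.Agent.H32.BQ

namespace Pool.Agent.Results.MP_d9a994_al.GrowthGap

theorem result : List.TFAE [
    -- (1) Q1 with a kernel that is a union of finite normal subgroups
    ∃ (G : Type) (_ : Group G) (Q : Type) (_ : Group Q) (φ : G →* Q),
      Function.Surjective φ ∧
      (∀ g : G, g ≠ 1 → ∃ H : Subgroup G, H.FiniteIndex ∧ g ∉ H) ∧
      (∀ s : Finset G, (↑s : Set G) ⊆ (φ.ker : Set G) →
        ∃ E : Subgroup G, E.Normal ∧ Finite E ∧ (↑s : Set G) ⊆ (E : Set G) ∧ E ≤ φ.ker) ∧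
      Group.FG Q ∧ Infinite Q ∧ Monoid.ExponentExists Q,
    -- (2) pairs of permutations in which the orders of all short words divide `n`
    ∃ n : ℕ, 0 < n ∧ ∀ B : ℕ, ∃ (N : ℕ) (a b : Equiv.Perm (Fin N)), B ≤ N ∧
      (∀ x y : Fin N, ∃ g ∈ Subgroup.closure {a, b}, g x = y) ∧ ∀ w ∈ ball {a, b} B, w ^ n = 1,
    -- (3) infinite residually finite groups with two generators and arbitrarily slowly growing `powSub`
    ∃ n : ℕ, 0 < n ∧ ∀ h : ℕ → ℕ, Filter.Tendsto h Filter.atTop Filter.atTop →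
      ∃ (R : Type) (_ : Group R) (a b : R), Subgroup.closure {a, b} = ⊤ ∧
        Infinite R ∧ (∀ g : R, g ≠ 1 → ∃ H : Subgroup R, H.FiniteIndex ∧ g ∉ H) ∧
        (∀ j : ℕ, Finite ↥(powSub {a, b} n j)) ∧
        ∀ M : ℕ, ∃ j : ℕ, M * Nat.card ↥(powSub {a, b} n j) ≤ h j,
    -- (4) an infinite residually finite group with two generators and growth slower than `2 ^ (j / 2)`
    ∃ (R : Type) (_ : Group R) (a b : R) (n : ℕ), 0 < n ∧ Subgroup.closure {a, b} = ⊤ ∧
      Infinite R ∧ (∀ g : R, g ≠ 1 → ∃ H : Subgroup R, H.FiniteIndex ∧ g ∉ H) ∧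
      (∀ j : ℕ, Finite ↥(powSub {a, b} n j)) ∧
      ∀ M : ℕ, ∃ j : ℕ, M * Nat.card ↥(powSub {a, b} n j) ≤ 2 ^ (j / 2),
    -- (5) the finite form of (4)
    ∃ (n : ℕ) (C : ℕ → ℕ), 0 < n ∧ (∀ M : ℕ, ∃ j : ℕ, M * C j ≤ 2 ^ (j / 2)) ∧
      ∀ B : ℕ, ∃ (N : ℕ) (a b : Equiv.Perm (Fin N)), B ≤ N ∧
        (∀ x y : Fin N, ∃ g ∈ Subgroup.closure {a, b}, g x = y) ∧
        ∀ j ≤ B, Nat.card ↥(powSub {a, b} n j) ≤ C j] :=
  Pool.Agent.H32.BQ.gap

end Pool.Agent.Results.MP_d9a994_al.GrowthGap
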