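import Mathlib
import Pool.Agent.H89.BC.Cls

/-!
# MP_d9a994, Q1: a negative answer for a class of locally finite kernels

`G` is residually finite, `φ : G → Q` is onto with locally finite kernel, `Q` is finitely generated, torsion, with
finitely many subgroups of finite index (by Zelmanov's theorem this holds if `Q` has finite exponent). If the kernel is in
the class `Cls φ` of normal subgroups of `G`, then `Q` is finite. The class contains `1`. It is closed under extensions
by factors of two types. The first type: enough finite quotients of the factor have a subnormal series of bounded length,
whose factors are nilpotent, or subdirect products of linear groups of bounded degree, or of order prime to the orders of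
the elements of `Q`, or have a bound for the orders of the subgroups generated by `k` elements, for each `k`. The second
type: the factor has a finite maximal `p`-subgroup for each prime `p` which is the order of an element of `Q`. The class
is closed under local unions in which the non-abelian simple sections are of bounded type, if `G` is finitely generated
or the union is the kernel.
-/

set_option autoImplicit false

universe u v

namespace Pool.Agent.Results.MP_d9a994_al.KernelClass

open Pool.Agent.H89.BC (Cls)

/-- Kernels in the class: the quotient is finite. -/
theorem result {G : Type u} {Q : Type v} [Group G] [Group Q] (φ : G →* Q) (hφ : Function.Surjective φ)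
    (hRF : ∀ g : G, g ≠ 1 → ∃ H : Subgroup G, H.FiniteIndex ∧ g ∉ H)
    (hLF : ∀ s : Finset G, (↑s : Set G) ⊆ (φ.ker : Set G) → Finite (Subgroup.closure (↑s : Set G)))
    (hQfg : Group.FG Q) (hQt : ∀ q : Q, IsOfFinOrder q) (hQ0 : {H : Subgroup Q | H.FiniteIndex}.Finite)
    (hcls : Cls φ φ.ker) : Finite Q :=
  Pool.Agent.H89.BC.cls φ hφ hRF hLF hQt hQfg hQ0 hcls

end Pool.Agent.Results.MP_d9a994_al.KernelClass
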