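import Mathlib
import Pool.Agent.H15.FI.L2

/-!
# MP_d9a994, Q1: kernels which are unions of normal subgroups of bounded complexity, and LEF groups

For each `n` the following are equivalent: there is an infinite finitely generated group of exponent `n` which is locally
embeddable into finite groups; Q1 has an example of exponent `n` in which the elements of the locally finite subgroup
have finite normal closures; Q1 has an example of exponent `n` in which the locally finite subgroup is the union of a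
directed family of normal subgroups, each of which has a finite series with factors of two types (`HasSeries`).
-/

set_option autoImplicit false

namespace Pool.Agent.Results.MP_d9a994_al.LEFKernels

open Pool.Agent.H15.FI

/-- The positive examples of Q1 whose kernel is a directed union of subgroups of bounded complexity exist if and only if
there is an infinite finitely generated LEF group of the same exponent. -/
theorem result (n : ℕ) (hn : 0 < n) :
    List.TFAE [
      ∃ (Q : Type) (_ : Group Q), Group.FG Q ∧ Infinite Q ∧ (∀ q : Q, q ^ n = 1) ∧ IsLEF Q,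
      ∃ (G : Type) (_ : Group G) (Q : Type) (_ : Group Q) (φ : G →* Q), Function.Surjective φ ∧
        (∀ g : G, g ≠ 1 → ∃ H : Subgroup G, H.FiniteIndex ∧ g ∉ H) ∧
        (∀ s : Finset G, (↑s : Set G) ⊆ (φ.ker : Set G) → Finite (Subgroup.closure (↑s : Set G))) ∧
        Group.FG Q ∧ Infinite Q ∧ (∀ q : Q, q ^ n = 1) ∧
        ∀ x ∈ φ.ker, Finite (Subgroup.normalClosure {x}),
      ∃ (G : Type) (_ : Group G) (Q : Type) (_ : Group Q) (φ : G →* Q), Function.Surjective φ ∧
        (∀ g : G, g ≠ 1 → ∃ H : Subgroup G, H.FiniteIndex ∧ g ∉ H) ∧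
        (∀ s : Finset G, (↑s : Set G) ⊆ (φ.ker : Set G) → Finite (Subgroup.closure (↑s : Set G))) ∧
        Group.FG Q ∧ Infinite Q ∧ (∀ q : Q, q ^ n = 1) ∧
        ∃ 𝒜 : Set (Subgroup G), (∀ A ∈ 𝒜, A.Normal ∧ A ≤ φ.ker ∧ HasSeries Q A) ∧
          (∀ A ∈ 𝒜, ∀ A' ∈ 𝒜, ∃ A'' ∈ 𝒜, A ≤ A'' ∧ A' ≤ A'') ∧ ∀ x ∈ φ.ker, ∃ A ∈ 𝒜, x ∈ A] := by
  tfae_have 1 → 2 := by
    rintro ⟨Q, iQ, h1, h2, h3, h4⟩
    have := countable_of_fg h1
    obtain ⟨G, iG, φ, g1, g2, g3, g4⟩ := of_lef h4
    exact ⟨G, iG, Q, iQ, φ, g1, g2, g3, h1, h2, h3, g4⟩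
  tfae_have 2 → 3 := by
    rintro ⟨G, iG, Q, iQ, φ, g1, g2, g3, h1, h2, h3, h4⟩
    refine ⟨G, iG, Q, iQ, φ, g1, g2, g3, h1, h2, h3,
      {A | A.Normal ∧ A ≤ φ.ker ∧ Finite A}, ?_, ?_, ?_⟩
    · rintro A ⟨hA1, hA2, hA3⟩
      exact ⟨hA1, hA2, hasSeries_of_finite hA1 hA3⟩
    · rintro A ⟨hA1, hA2, hA3⟩ A' ⟨hA1', hA2', hA3'⟩
      exact ⟨A ⊔ A', ⟨inferInstance, sup_le hA2 hA2', finite_sup hA1 hA3 hA3'⟩, le_sup_left, le_sup_right⟩
    · intro x hx
      exact ⟨Subgroup.normalClosure {x}, ⟨inferInstance,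
        Subgroup.normalClosure_le_normal (by simpa using hx), h4 x hx⟩,
        Subgroup.subset_normalClosure (Set.mem_singleton x)⟩
  tfae_have 3 → 1 := by
    rintro ⟨G, iG, Q, iQ, φ, g1, g2, g3, h1, h2, h3, 𝒜, h4, h5, h6⟩
    have hQt : ∀ q : Q, IsOfFinOrder q := fun q => isOfFinOrder_iff_pow_eq_one.2 ⟨n, hn, h3 q⟩
    obtain ⟨M, hM, m1, m2⟩ := lef_quotient φ g1 g2 g3 h1 hQt h2 𝒜 (fun A hA => (h4 A hA).1)
      (fun A hA => (h4 A hA).2.1) (fun A hA => (h4 A hA).2.2) h5 h6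
    refine ⟨Q ⧸ M, inferInstance, Group.fg_of_surjective (QuotientGroup.mk'_surjective M), m1, ?_, m2⟩
    intro q
    obtain ⟨q, rfl⟩ := QuotientGroup.mk'_surjective M q
    rw [← map_pow, h3, map_one]
  tfae_finish

end Pool.Agent.Results.MP_d9a994_al.LEFKernels
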