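import Pool.Agent.H32.BQ.Main

/-!
# MP_d9a994_al: Q1 is a question on pairs of permutations

`ball S j` is the set of the products of at most `j` factors, each of which is an element of `S` or the inverse of
an element of `S`; `powSub S n j` is the subgroup generated by the `n`-th powers of the elements of `ball S j`.

The four statements in the theorem are equivalent; the first one is Q1 (frozen statement S03227).
-/

set_option autoImplicit false

open Pool.Agent.H32.BQ

namespace Pool.Agent.Results.MP_d9a994_al.SymmetricGroups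

theorem result : List.TFAE [
    -- (1) Q1
    ∃ (G : Type) (_ : Group G) (Q : Type) (_ : Group Q) (φ : G →* Q),
      Function.Surjective φ ∧
      (∀ g : G, g ≠ 1 → ∃ H : Subgroup G, H.FiniteIndex ∧ g ∉ H) ∧
      (∀ s : Finset G, (↑s : Set G) ⊆ (φ.ker : Set G) →
          Finite (Subgroup.closure (↑s : Set G))) ∧
      Group.FG Q ∧ Infinite Q ∧ Monoid.ExponentExists Q,
    -- (2) an infinite residually finite group with two generators, in which every finite set of
    -- `n`-th powers generates a finite subgroup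
    ∃ (R : Type) (_ : Group R) (a b : R) (n : ℕ), 0 < n ∧ Subgroup.closure {a, b} = ⊤ ∧
      Infinite R ∧ (∀ g : R, g ≠ 1 → ∃ H : Subgroup R, H.FiniteIndex ∧ g ∉ H) ∧
      ∀ s : Finset R, (∀ x ∈ s, ∃ g, x = g ^ n) → Finite (Subgroup.closure (s : Set R)),
    -- (3) the weak finite form
    ∃ (n : ℕ) (C : ℕ → ℕ), 0 < n ∧ ∀ B : ℕ, ∃ (N : ℕ) (a b : Equiv.Perm (Fin N)),
      B ≤ N ∧ (∀ x y : Fin N, ∃ g ∈ Subgroup.closure {a, b}, g x = y) ∧
      ∀ j ≤ B, ∀ x : Fin N, {y | ∃ g ∈ powSub {a, b} n j, g x = y}.ncard ≤ C j,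
    -- (4) the strong finite form
    ∃ (n : ℕ) (C : ℕ → ℕ), 0 < n ∧ ∀ B : ℕ, ∃ (N : ℕ) (a b : Equiv.Perm (Fin N)),
      B ≤ N ∧ Subgroup.closure {a, b} = ⊤ ∧ ∀ j : ℕ, Nat.card ↥(powSub {a, b} n j) ≤ C j] :=
  Pool.Agent.H32.BQ.main

end Pool.Agent.Results.MP_d9a994_al.SymmetricGroups
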